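import Pool.Agent.Helper20.QP.St1

/-!
# Project QD, PART P, module NCL: the number of short classes
-/

set_option autoImplicit false

open Filter Topology Matrix Set Metric MeasureTheory
open scoped ComplexConjugate ENNReal

namespace Pool.Agent.Helper94.QP

open Pool.Agent.Helper35.PM Pool.Agent.Helper20.QD Pool.Agent.Helper20.QP

/-- the piece of the collar -/
private def Pc (l : ℝ) : Set ℂ := {w | w ∈ Sab 64 (Real.pi / l - 64) ∧ 0 ≤ w.re ∧ w.re < 1}

private lemma Pc_meas (l : ℝ) : MeasurableSet (Pc l) := by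
  have h1 : MeasurableSet {w : ℂ | 64 < w.im} := measurableSet_lt measurable_const Complex.measurable_im
  have h2 : MeasurableSet {w : ℂ | w.im < Real.pi / l - 64} :=
    measurableSet_lt Complex.measurable_im measurable_const
  have h3 : MeasurableSet {w : ℂ | 0 ≤ w.re} := measurableSet_le measurable_const Complex.measurable_re
  have h4 : MeasurableSet {w : ℂ | w.re < 1} := measurableSet_lt Complex.measurable_re measurable_const
  have h5 : Pc l = ({w : ℂ | 64 < w.im} ∩ {w : ℂ | w.im < Real.pi / l - 64}) ∩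
      ({w : ℂ | 0 ≤ w.re} ∩ {w : ℂ | w.re < 1}) := by
    ext w
    rfl
  rw [h5]
  exact (h1.inter h2).inter (h3.inter h4)

private lemma Sab_sub (l : ℝ) : Sab 64 (Real.pi / l - 64) ⊆ Sm (Real.pi / l) := by
  rintro w ⟨h1, h2⟩
  exact ⟨by linarith, by linarith⟩

private lemma Pc_sub (l : ℝ) : Pc l ⊆ Sm (Real.pi / l) := fun _ hw => Sab_sub l hw.1

private lemma Sm_add {m : ℝ} {w : ℂ} (hw : w ∈ Sm m) (x : ℝ) : w + (x : ℂ) ∈ Sm m := by
  obtain ⟨h1, h2⟩ := hw
  refine ⟨?_, ?_⟩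
  · simpa using h1
  · simpa using h2

private lemma area_ge (l : ℝ) (h0 : 0 < l) (h1 : l ≤ 1 / 64) :
    (1 / 64 : ℝ) ≤ l * (Real.cos (l * 64) / Real.sin (l * 64) -
      Real.cos (l * (Real.pi / l - 64)) / Real.sin (l * (Real.pi / l - 64))) := by
  have e1 : l * (Real.pi / l - 64) = Real.pi - l * 64 := by
    rw [mul_sub, mul_div_cancel₀ _ h0.ne']
  rw [e1, Real.cos_pi_sub, Real.sin_pi_sub]
  obtain ⟨x, hx⟩ : ∃ x, x = l * 64 := ⟨_, rfl⟩
  rw [← hx]
  have hx0 : 0 < x := by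
    rw [hx]
    positivity
  have hx1 : x ≤ 1 := by
    rw [hx]
    linarith
  have hs : 0 < Real.sin x := Real.sin_pos_of_pos_of_lt_pi hx0 (by linarith [Real.pi_gt_three])
  have hs2 : Real.sin x ≤ x := Real.sin_le hx0.le
  have hc : 1 / 2 ≤ Real.cos x := by
    have := Real.one_sub_sq_div_two_le_cos (x := x)
    nlinarith
  have hl : l = x / 64 := by
    rw [hx]
    ring
  rw [hl, neg_div, sub_neg_eq_add]
  have e2 : x / 64 * (Real.cos x / Real.sin x + Real.cos x / Real.sin x) =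
      (1 / 64) * (2 * Real.cos x * x / Real.sin x) := by
    ring
  rw [e2]
  have e3 : 1 ≤ 2 * Real.cos x * x / Real.sin x := by
    rw [le_div_iff₀ hs]
    nlinarith
  linarith

private lemma per_nat (hSUB : StSUB) {Γ : Type} [Group Γ] (σ : Γ →* SL) (hσ : Fuch σ) (α : Γ)
    (l : ℝ) (q : ℂ → ℂ) (hq : SC (σ α) l q) (n : ℕ) : ∀ w ∈ Sm (Real.pi / l),
    mob (σ (α ^ n)) (q w) = q (w + (n : ℂ)) := by
  induction n with
  | zero =>
    intro w _
    simp [mob]
  | succ n ih =>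
    intro w hw
    have hD : q w ∈ DD := ball_subset_closedBall (hq.bij.mapsTo hw)
    rw [pow_succ', map_mul, (hSUB.2.2.2.1 _ _ _ ((hSUB.1 _ (hσ.su (α ^ n))).2.1 _ hD)).1, ih w hw]
    have hw' : w + (n : ℂ) ∈ Sm (Real.pi / l) := by
      have := Sm_add hw (n : ℝ)
      simpa using this
    rw [← hq.per _ hw']
    congr 1
    push_cast
    ring

private lemma per_int (hSUB : StSUB) {Γ : Type} [Group Γ] (σ : Γ →* SL) (hσ : Fuch σ) (α : Γ)
    (l : ℝ) (q : ℂ → ℂ) (hq : SC (σ α) l q) (n : ℤ) (w : ℂ) (hw : w ∈ Sm (Real.pi / l)) :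
    mob (σ (α ^ n)) (q w) = q (w + (n : ℂ)) := by
  obtain ⟨m, rfl | rfl⟩ := n.eq_nat_or_neg
  · rw [zpow_natCast, per_nat hSUB σ hσ α l q hq m w hw]
    simp
  · have hw' : w - (m : ℂ) ∈ Sm (Real.pi / l) := by
      have := Sm_add hw (-(m : ℝ))
      simpa [sub_eq_add_neg] using this
    have h1 := per_nat hSUB σ hσ α l q hq m _ hw'
    rw [sub_add_cancel] at h1
    have hD : q (w - (m : ℂ)) ∈ DD := ball_subset_closedBall (hq.bij.mapsTo hw')
    have h2 := (hSUB.1 _ (hσ.su (α ^ m))).2.2.2.2 _ hD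
    rw [h1] at h2
    rw [_root_.zpow_neg, zpow_natCast, map_inv, h2]
    congr 1
    push_cast
    ring

theorem hNCL (hSUB : StSUB) (hHY2 : StHY2) (hSCE : StSCE) (hCOL : StCOL) (hARC : StARC)
    (hPKG : StPKG) : StNCL := by
  intro A0
  refine ⟨⌈64 * A0⌉₊, ?_⟩
  intro Γ _ σ F0 hσ hT hF hA a ha
  by_contra hcon
  push Not at hcon
  obtain ⟨-, -, ε, hε, hth⟩ := hHY2 Γ σ hσ hT
  have hsc : ∀ i, ∃ lq : ℝ × (ℂ → ℂ), SC (σ (a i)) lq.1 lq.2 ∧ lq.1 ≤ 1 / 64 := by
    intro i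
    have hpos : 0 < sh (σ (a i)) := lt_of_lt_of_le hε (hth _ (ha i).1.1)
    obtain ⟨l, q, h⟩ := hSCE _ (hσ.su _) hpos
    refine ⟨(l, q), h, ?_⟩
    have h1 : l / 2 ≤ Real.sinh (l / 2) := Real.self_le_sinh_iff.2 (by linarith [h.l0])
    have h2 : Real.sinh (l / 2) ^ 2 ≤ (1 / 128) ^ 2 := by
      rw [h.lsh]
      have := (ha i).2
      norm_num at this ⊢
      linarith
    have h3 : Real.sinh (l / 2) ≤ 1 / 128 := by
      refine le_of_sq_le_sq h2 (by norm_num)
    show l ≤ 1 / 64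
    linarith
  choose lq hlq using hsc
  have hbig : ∀ i, 128 < Real.pi / (lq i).1 := by
    intro i
    rw [lt_div_iff₀ (hlq i).1.l0]
    have := (hlq i).2
    nlinarith [Real.pi_gt_three]
  have hPK := hPKG Γ σ F0 hσ hF
  have hsum := hPK.1 (Fin (⌈64 * A0⌉₊ + 1)) (fun i => (lq i).2 '' Pc (lq i).1) ?_ ?_
  · have hge : ∀ i, ENNReal.ofReal (1 / 64) ≤ ar ((lq i).2 '' Pc (lq i).1) := by
      intro i
      have h1 := hARC _ _ _ (hlq i).1 64 (Real.pi / (lq i).1 - 64) (by norm_num)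
        (by linarith [hbig i]) (by linarith)
      have h2 : ar ((lq i).2 '' Pc (lq i).1) = _ := h1
      rw [h2]
      exact ENNReal.ofReal_le_ofReal (area_ge _ (hlq i).1.l0 (hlq i).2)
    have h3 : ((⌈64 * A0⌉₊ + 1 : ℕ) : ℝ≥0∞) * ENNReal.ofReal (1 / 64) ≤ ar F0 := by
      refine le_trans ?_ hsum
      calc ((⌈64 * A0⌉₊ + 1 : ℕ) : ℝ≥0∞) * ENNReal.ofReal (1 / 64)
          = ∑ _i : Fin (⌈64 * A0⌉₊ + 1), ENNReal.ofReal (1 / 64) := by
            rw [Finset.sum_const, Finset.card_univ, Fintype.card_fin, nsmul_eq_mul]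
        _ ≤ _ := Finset.sum_le_sum fun i _ => hge i
    have h4 := ENNReal.toReal_mono hPK.2.1 h3
    rw [hPK.2.2, ENNReal.toReal_mul, ENNReal.toReal_natCast, ENNReal.toReal_ofReal (by norm_num)]
      at h4
    push_cast at h4
    have h5 := Nat.le_ceil (64 * A0)
    linarith
  · intro i
    refine ⟨?_, ?_⟩
    · exact (Pc_meas _).image_of_continuousOn_injOn
        ((hlq i).1.hol.continuousOn.mono (Pc_sub _)) ((hlq i).1.bij.injOn.mono (Pc_sub _))
    · rintro _ ⟨w, hw, rfl⟩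
      exact (hlq i).1.bij.mapsTo (Pc_sub _ hw)
  · intro i j γ hij
    have hle : ∀ i, (lq i).1 ≤ 1 := fun i => by linarith [(hlq i).2]
    have hsub : ∀ i, (lq i).2 '' Pc (lq i).1 ⊆ (lq i).2 '' Sab 64 (Real.pi / (lq i).1 - 64) :=
      fun i => image_mono fun w hw => hw.1
    by_cases hne : i = j
    · subst hne
      have hγ : γ ≠ 1 := by
        rcases hij with h | h
        · exact absurd rfl h
        · exact h
      by_cases hpow : ∀ n : ℤ, γ ≠ a i ^ n
      · have h1 := (hCOL Γ σ hσ hT (a i) (a i) _ _ _ _ (ha i).1 (ha i).1 (hlq i).1 (hlq i).1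
          (hle i) (hle i)).1 γ hpow
        exact h1.mono (image_mono (hsub i)) (hsub i)
      · push Not at hpow
        obtain ⟨n, rfl⟩ := hpow
        have hn : n ≠ 0 := by
          rintro rfl
          exact hγ (zpow_zero _)
        rw [Set.disjoint_left]
        rintro x ⟨_, ⟨w, hw, rfl⟩, rfl⟩ ⟨w', hw', he⟩
        rw [per_int hSUB σ hσ (a i) _ _ (hlq i).1 n w (Pc_sub _ hw)] at he
        have hw2 : w + (n : ℂ) ∈ Sm (Real.pi / (lq i).1) := by
          have := Sm_add (Pc_sub _ hw) (n : ℝ)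
          simpa using this
        have h2 := (hlq i).1.bij.injOn (Pc_sub _ hw') hw2 he
        have h3 := congrArg Complex.re h2
        simp only [Complex.add_re, Complex.intCast_re] at h3
        have h4 := hw.2
        have h5 := hw'.2
        have h6 : (-1 : ℝ) < n := by linarith [h4.2, h5.1]
        have h7 : (n : ℝ) < 1 := by linarith [h4.1, h5.2]
        have h8 : (-1 : ℤ) < n := by exact_mod_cast h6
        have h9 : n < (1 : ℤ) := by exact_mod_cast h7
        omega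
    · have h1 := (hCOL Γ σ hσ hT (a i) (a j) _ _ _ _ (ha i).1 (ha j).1 (hlq i).1 (hlq j).1
        (hle i) (hle j)).2 (hcon i j hne) γ
      exact h1.mono (image_mono (hsub i)) (hsub j)

end Pool.Agent.Helper94.QP
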